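import Pool.Agent.H557R2.PW.Main
import Pool.Agent.H557R2.PW.PolyF

namespace Pool.Agent.Results.MP_df8bb0_lc.PolyTime

open Pool.Agent.NPC Pool.Agent.H557R2.PW

/-- For every fixed positive integer `p`, the problem `P2|pmtn,p_j=p|∑w_jT_j` is solvable in
polynomial time: the minimum total weighted tardiness of a preemptive schedule on two identical
machines exists, it is half of an integer, this integer is computed from the list of the jobs
(weight, due date), in binary, in polynomial time, and the decision version is in `P`. -/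
theorem result (p : ℕ) (hp : 0 < p) :
    (∃ f : List (ℕ × ℕ) → ℕ, NPC.Poly f ∧ ∀ I : List (ℕ × ℕ),
      IsLeast {v : ℝ | ∃ S : Finset (Piece I.length), IsSchedule p I.length S ∧ tardiness I S = v}
        ((f I : ℝ) / 2)) ∧
    InPP (Decision p) := by
  have h1 : Poly (fun I : List Job => opt p I) := NPC.Poly.optGetD (poly_optO p) (NPC.Poly.const 0)
  refine ⟨⟨opt p, h1, fun I => opt_isLeast hp I⟩, ?_⟩
  refine inPP_of (d := fun x : List Job × ℕ => decide (opt p x.1 ≤ 2 * x.2)) ?_ ?_
  · exact NPC.Poly.decide_le (h1.comp (NPC.Poly.fst NPC.Poly.id))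
      (NPC.Poly.mul (NPC.Poly.const 2) (NPC.Poly.snd NPC.Poly.id))
  · intro x
    rw [decision_iff hp]
    simp

end Pool.Agent.Results.MP_df8bb0_lc.PolyTime
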